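import Mathlib

/-!
# MP_4402ee_co : a hypo-unique-domination graph with a cut-vertex

We exhibit a graph `G` on 19 vertices with `γ(G) = 5` and several `γ`-sets such that for every
vertex `v` the graph `G - v` has exactly one `γ`-set (of size 4), and such that vertex `0` is a
cut-vertex of `G`. It is the coalescence of two copies of a graph on 10 vertices.
-/

set_option autoImplicit false

namespace Pool.Agent.Results.MP_4402ee_co.HypoUDCutVertex

/-- `D` is a dominating set of `G`: every vertex outside `D` has a neighbour in `D`. -/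
def IsDominating {V : Type*} (G : SimpleGraph V) (D : Finset V) : Prop :=
  ∀ u, u ∉ D → ∃ w ∈ D, G.Adj u w

/-- `D` is a `γ`-set of `G`: a dominating set of the least possible size. -/
def IsGammaSet {V : Type*} (G : SimpleGraph V) (D : Finset V) : Prop :=
  IsDominating G D ∧ ∀ D' : Finset V, IsDominating G D' → D.card ≤ D'.card

/-- The graph `G - v`. -/
def del {V : Type*} (G : SimpleGraph V) (v : V) : SimpleGraph {w : V // w ≠ v} :=
  G.comap Subtype.val

/-- `G` is hypo-`UD`: it has at least two `γ`-sets, while every `G - v` has exactly one. -/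
def IsHypoUD {V : Type*} (G : SimpleGraph V) : Prop :=
  (∃ D₁ D₂ : Finset V, D₁ ≠ D₂ ∧ IsGammaSet G D₁ ∧ IsGammaSet G D₂) ∧
    ∀ v : V, ∃! D : Finset {w : V // w ≠ v}, IsGammaSet (del G v) D

/-- `v` is a cut-vertex of `G`: `G - v` has more connected components than `G`. -/
def IsCutVertex {V : Type*} (G : SimpleGraph V) (v : V) : Prop :=
  Nat.card G.ConnectedComponent < Nat.card (del G v).ConnectedComponent

/-! ### The graph -/

/-- The closed neighbourhoods, as bit masks. -/
def nbl : List ℕ := [459649, 834, 804, 712, 432, 692, 458, 249, 343, 559, 427008, 411648, 364544,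
  221184, 354304, 234496, 126977, 175105, 285697]

/-- The closed neighbourhood of `v`, as a bit mask. -/
def nb (v : ℕ) : ℕ := nbl.getD v 0

theorem nb_symm : ∀ i j : Fin 19, (nb i).testBit j = (nb j).testBit i := by decide +kernel

theorem nb_self : ∀ i : Fin 19, (nb i).testBit i = true := by decide +kernel

/-- The graph on 19 vertices. -/
def G : SimpleGraph (Fin 19) where
  Adj i j := i ≠ j ∧ (nb i).testBit j = true
  symm := ⟨fun i j h => ⟨h.1.symm, by rw [nb_symm j i]; exact h.2⟩⟩
  loopless := ⟨fun i h => h.1 rfl⟩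

instance : DecidableRel G.Adj := fun i j => by unfold G; infer_instance

/-! ### The search -/

/-- Search for the dominating sets (of the graph on the vertex set `alive`) of size at most
`|S| + k` that contain the set `S`, where `dom` is the set of vertices dominated by `S`; the
result `true` means that there is none except possibly `target`. -/
def srch (alive target : ℕ) : ℕ → ℕ → ℕ → Bool
  | 0, dom, S => if alive &&& dom = alive then S == target else true
  | k + 1, dom, S =>
    if alive &&& dom = alive then false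
    else
      let u := Nat.log2 (alive - (alive &&& dom))
      alive.testBit u && !dom.testBit u &&
        (List.range 19).all fun w =>
          !((nb u &&& alive).testBit w) || srch alive target k (dom ||| nb w) (S ||| (1 <<< w))

theorem exists_undom {alive dom : ℕ} (h : ¬ (alive &&& dom = alive)) :
    ∃ j, alive.testBit j = true ∧ dom.testBit j = false := by
  by_contra hcon
  push Not at hcon
  refine h (Nat.eq_of_testBit_eq fun j => ?_)
  rw [Nat.testBit_and]
  have := hcon j
  cases h1 : alive.testBit j <;> cases h2 : dom.testBit j <;> simp_all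

theorem srch_sound (alive target : ℕ) (hal : ∀ j, alive.testBit j = true → j < 19)
    (D : Finset ℕ) (hD : ∀ j, alive.testBit j = true →
      ∃ w ∈ D, alive.testBit w = true ∧ (nb w).testBit j = true) :
    ∀ (k dom S : ℕ) (T : Finset ℕ), (∀ i, i ∈ T ↔ S.testBit i = true) →
      (∀ j, alive.testBit j = true → (dom.testBit j = true ↔ ∃ i ∈ T, (nb i).testBit j = true)) →
      T ⊆ D → D.card ≤ T.card + k → srch alive target k dom S = true →
      ∀ i, i ∈ D ↔ target.testBit i = true := by
  intro k
  induction k with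
  | zero =>
    intro dom S T hT hdom hTD hcard hs
    have hTD' : T = D := Finset.eq_of_subset_of_card_le hTD (by omega)
    subst hTD'
    unfold srch at hs
    split_ifs at hs with h
    · intro i
      rw [hT i, beq_iff_eq.mp hs]
    · exfalso
      obtain ⟨j, hj, hj2⟩ := exists_undom h
      obtain ⟨w, hw, -, hw2⟩ := hD j hj
      have := (hdom j hj).mpr ⟨w, hw, hw2⟩
      rw [hj2] at this
      exact Bool.false_ne_true this
  | succ k ih =>
    intro dom S T hT hdom hTD hcard hs
    unfold srch at hs
    split_ifs at hs with h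
    simp only [Bool.and_eq_true, Bool.not_eq_true', List.all_eq_true, List.mem_range,
      Bool.or_eq_true] at hs
    obtain ⟨⟨hu, hu2⟩, hall⟩ := hs
    set u := Nat.log2 (alive - (alive &&& dom)) with hudef
    obtain ⟨w, hw, hwal, hwu⟩ := hD u hu
    have hw19 := hal w hwal
    have hu19 := hal u hu
    have hwu' : (nb u).testBit w = true := by
      have := nb_symm ⟨w, hw19⟩ ⟨u, hu19⟩
      simp only at this
      rw [← this]; exact hwu
    have hwT : w ∉ T := by
      intro hwT
      have := (hdom u hu).mpr ⟨w, hwT, hwu⟩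
      rw [hu2] at this
      exact Bool.false_ne_true this
    rcases hall w hw19 with h1 | h1
    · rw [Nat.testBit_and, hwu', hwal] at h1
      exact absurd h1 (by decide)
    · refine ih (dom ||| nb w) (S ||| (1 <<< w)) (insert w T) ?_ ?_ ?_ ?_ h1
      · intro i
        rw [Finset.mem_insert, hT i, Nat.testBit_or, Nat.one_shiftLeft, Nat.testBit_two_pow]
        simp only [Bool.or_eq_true, decide_eq_true_eq]
        constructor
        · rintro (h | h)
          · exact Or.inr h.symm
          · exact Or.inl h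
        · rintro (h | h)
          · exact Or.inr h
          · exact Or.inl h.symm
      · intro j hj
        rw [Nat.testBit_or, Bool.or_eq_true, hdom j hj]
        simp only [Finset.mem_insert, exists_eq_or_imp]
        exact or_comm
      · intro i hi
        rcases Finset.mem_insert.mp hi with h | h
        · rw [h]; exact hw
        · exact hTD h
      · rw [Finset.card_insert_of_notMem hwT]
        omega

/-! ### The whole graph -/

theorem srch_G : srch 524287 0 4 0 0 = true := by decide +kernel

/-- The mask of the vertices of `G - v`. -/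
def al (v : ℕ) : ℕ := 524287 - 1 <<< v

/-- The unique minimum dominating set of `G - v`, as a bit mask. -/
def tg (v : ℕ) : ℕ := [49248, 49284, 49282, 49440, 49728, 49416, 49680, 49920, 49792, 49536,
  67680, 66656, 147552, 295008, 135264, 270432, 393312, 327776, 196704].getD v 0

theorem srch_del : ∀ v : Fin 19, srch (al v) (tg v) 4 0 0 = true := by decide +kernel

theorem al_iff (v : Fin 19) (j : ℕ) : (al v).testBit j = true ↔ j < 19 ∧ j ≠ v := by
  by_cases hj : j < 19
  · have h := (by decide +kernel : ∀ v j : Fin 19, (al v).testBit j = decide (j ≠ v)) v ⟨j, hj⟩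
    simp only at h
    rw [h, decide_eq_true_eq]
    simp only [hj, true_and, ne_eq, Fin.ext_iff]
  · have h1 : al v < 2 ^ 19 := lt_of_le_of_lt (Nat.sub_le _ _) (by norm_num)
    have h2 : al v < 2 ^ j := lt_of_lt_of_le h1 (Nat.pow_le_pow_right (by norm_num) (by omega))
    rw [Nat.testBit_lt_two_pow h2]
    simp [hj]

theorem full_iff (j : ℕ) : (524287 : ℕ).testBit j = true ↔ j < 19 := by
  by_cases hj : j < 19
  · have h := (by decide +kernel : ∀ j : Fin 19, (524287 : ℕ).testBit j = true) ⟨j, hj⟩
    simp only at h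
    simp [h, hj]
  · have h2 : 524287 < 2 ^ j :=
      lt_of_lt_of_le (by norm_num : 524287 < 2 ^ 19) (Nat.pow_le_pow_right (by norm_num) (by omega))
    rw [Nat.testBit_lt_two_pow h2]
    simp [hj]

/-- The image of a vertex set in `ℕ`. -/
def toN {p : Fin 19 → Prop} (D : Finset {w : Fin 19 // p w}) : Finset ℕ :=
  D.map ⟨fun x => (x.1 : ℕ), fun _ _ h => Subtype.ext (Fin.ext h)⟩

theorem mem_toN {p : Fin 19 → Prop} (D : Finset {w : Fin 19 // p w}) (w : {w : Fin 19 // p w}) :
    ((w.1 : ℕ) ∈ toN D) ↔ w ∈ D := by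
  unfold toN
  rw [Finset.mem_map]
  constructor
  · rintro ⟨x, hx, h⟩
    have : x = w := Subtype.ext (Fin.ext h)
    rw [← this]; exact hx
  · intro h
    exact ⟨w, h, rfl⟩

theorem dom_del {v : Fin 19} {D : Finset {w : Fin 19 // w ≠ v}} (hD : IsDominating (del G v) D)
    (hc : D.card ≤ 4) (i : {w : Fin 19 // w ≠ v}) : i ∈ D ↔ (tg v).testBit i.1 = true := by
  have h := srch_sound (al v) (tg v) (fun j hj => ((al_iff v j).mp hj).1) (toN D) ?_ 4 0 0 ∅ ?_ ?_
    (Finset.empty_subset _) ?_ (srch_del v) (i.1 : ℕ)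
  · rw [← h, mem_toN]
  · intro j hj
    obtain ⟨hj1, hj2⟩ := (al_iff v j).mp hj
    have hjv : (⟨j, hj1⟩ : Fin 19) ≠ v := fun h => hj2 (by rw [← h])
    by_cases hm : (⟨⟨j, hj1⟩, hjv⟩ : {w : Fin 19 // w ≠ v}) ∈ D
    · exact ⟨j, (mem_toN D _).mpr hm, hj, nb_self ⟨j, hj1⟩⟩
    · obtain ⟨w, hw, hadj⟩ := hD _ hm
      refine ⟨(w.1 : ℕ), (mem_toN D w).mpr hw, (al_iff v _).mpr ⟨w.1.2, fun h => w.2 (Fin.ext h)⟩, ?_⟩
      have h2 : (nb (⟨j, hj1⟩ : Fin 19)).testBit w.1 = true := hadj.2
      rw [nb_symm] at h2
      exact h2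
  · intro i
    simp
  · intro j _
    simp
  · unfold toN
    rw [Finset.card_map]
    simpa using hc

theorem dom_G {D : Finset (Fin 19)} (hD : IsDominating G D) : 5 ≤ D.card := by
  by_contra hc
  have h := fun i => srch_sound 524287 0 (fun j hj => (full_iff j).mp hj)
    (D.map Fin.valEmbedding) ?_ 4 0 0 ∅ ?_ ?_ (Finset.empty_subset _) ?_ srch_G i
  · have h0 : (0 : Fin 19) ∉ D := by
      intro h0
      have := (h 0).mp (Finset.mem_map.mpr ⟨0, h0, rfl⟩)
      simp at this
    obtain ⟨w, hw, -⟩ := hD 0 h0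
    have := (h w).mp (Finset.mem_map.mpr ⟨w, hw, rfl⟩)
    simp at this
  · intro j hj
    have hj1 := (full_iff j).mp hj
    by_cases hm : (⟨j, hj1⟩ : Fin 19) ∈ D
    · exact ⟨j, Finset.mem_map.mpr ⟨_, hm, rfl⟩, hj, nb_self ⟨j, hj1⟩⟩
    · obtain ⟨w, hw, hadj⟩ := hD _ hm
      refine ⟨(w : ℕ), Finset.mem_map.mpr ⟨w, hw, rfl⟩, (full_iff _).mpr w.2, ?_⟩
      have h2 : (nb (⟨j, hj1⟩ : Fin 19)).testBit w = true := hadj.2
      rw [nb_symm] at h2
      exact h2
  · intro i
    simp
  · intro j _
    simp
  · rw [Finset.card_map]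
    simp only [Finset.card_empty]
    omega

/-- The unique `γ`-set of `G - v`. -/
def TG (v : Fin 19) : Finset {w : Fin 19 // w ≠ v} :=
  Finset.univ.filter fun w => (tg v).testBit w.1 = true

theorem mem_TG {v : Fin 19} {w : {w : Fin 19 // w ≠ v}} :
    w ∈ TG v ↔ (tg v).testBit w.1 = true := by
  unfold TG
  simp

theorem card_TG : ∀ v, (TG v).card = 4 := by decide +kernel

theorem dom_TG' : ∀ v j : Fin 19, j ≠ v → (tg v).testBit j = true ∨
    ∃ w : Fin 19, w ≠ v ∧ j ≠ w ∧ (tg v).testBit w = true ∧ (nb j).testBit w = true := by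
  decide +kernel

theorem dom_TG (v : Fin 19) : IsDominating (del G v) (TG v) := by
  rintro ⟨j, hj⟩ hjn
  rw [mem_TG] at hjn
  rcases dom_TG' v j hj with h | ⟨w, hwv, hjw, h1, h2⟩
  · exact absurd h hjn
  · exact ⟨⟨w, hwv⟩, mem_TG.mpr h1, ⟨hjw, h2⟩⟩

theorem eq_TG {v : Fin 19} {D : Finset {w : Fin 19 // w ≠ v}} (hD : IsDominating (del G v) D)
    (hc : D.card ≤ 4) : D = TG v := by
  ext w
  rw [dom_del hD hc w, mem_TG]

theorem gamma_TG (v : Fin 19) : IsGammaSet (del G v) (TG v) := by
  refine ⟨dom_TG v, fun D' hD' => ?_⟩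
  by_contra hlt
  rw [card_TG] at hlt
  have := eq_TG hD' (by omega)
  rw [this, card_TG] at hlt
  omega

theorem hypoUD : IsHypoUD G := by
  constructor
  · refine ⟨{0, 5, 6, 14, 15}, {0, 5, 6, 16, 17}, by decide, ⟨?_, fun D' hD' => ?_⟩,
      ⟨?_, fun D' hD' => ?_⟩⟩
    · unfold IsDominating; decide +kernel
    · exact le_trans (by decide) (dom_G hD')
    · unfold IsDominating; decide +kernel
    · exact le_trans (by decide) (dom_G hD')
  · intro v
    refine ⟨TG v, gamma_TG v, fun D hD => eq_TG hD.1 ?_⟩
    have := hD.2 (TG v) (dom_TG v)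
    rw [card_TG] at this
    exact this

/-! ### The cut-vertex -/

theorem near : ∀ v : Fin 19, v = 0 ∨ G.Adj 0 v ∨ ∃ w, G.Adj 0 w ∧ G.Adj w v := by
  decide +kernel

theorem G_preconnected : G.Preconnected := by
  have h : ∀ v, G.Reachable 0 v := by
    intro v
    rcases near v with h | h | ⟨w, h1, h2⟩
    · rw [h]
    · exact h.reachable
    · exact h1.reachable.trans h2.reachable
  intro u v
  exact (h u).symm.trans (h v)

theorem side : ∀ i j : Fin 19, i ≠ 0 → j ≠ 0 → G.Adj i j → ((i : ℕ) ≤ 9 ↔ (j : ℕ) ≤ 9) := by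
  decide +kernel

theorem cut : IsCutVertex G 0 := by
  unfold IsCutVertex
  have h1 : Nat.card G.ConnectedComponent ≤ 1 := by
    have : Subsingleton G.ConnectedComponent := G_preconnected.subsingleton_connectedComponent
    exact Finite.card_le_one_iff_subsingleton.mpr this
  have hreach : ∀ x y : {w : Fin 19 // w ≠ 0}, (del G 0).Reachable x y →
      ((x.1 : ℕ) ≤ 9 ↔ (y.1 : ℕ) ≤ 9) := by
    rintro x y ⟨p⟩
    induction p with
    | nil => exact Iff.rfl
    | @cons a b c h _ ih => exact (side a.1 b.1 a.2 b.2 h).trans ih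
  have h2 : 1 < Nat.card (del G 0).ConnectedComponent := by
    rw [Finite.one_lt_card_iff_nontrivial]
    refine ⟨(del G 0).connectedComponentMk ⟨1, by decide⟩,
      (del G 0).connectedComponentMk ⟨10, by decide⟩, ?_⟩
    intro h
    have := hreach _ _ (SimpleGraph.ConnectedComponent.exact h)
    revert this
    decide
  omega

/-- **MP_4402ee_co, Q1 (yes).** There is a hypo-`UD` graph with a cut-vertex. -/
theorem result : ∃ G : SimpleGraph (Fin 19), IsHypoUD G ∧ ∃ v, IsCutVertex G v :=
  ⟨G, hypoUD, 0, cut⟩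

end Pool.Agent.Results.MP_4402ee_co.HypoUDCutVertex
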